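import Pool.Agent.Y860.IT.Rat
import Pool.Agent.Y827.GS.OGd

/-!
# Five ninths of the iterated equations
-/

set_option autoImplicit false

namespace Pool.Agent.Y860.G5

open Finset Filter Pool.Agent.H732R3.BigQ Pool.Agent.W59.GB Pool.Agent.H947R3.GM Pool.Agent.W25.IT
open Pool.Agent.W25.IT.Rat Pool.Agent.W142.TF

/-- five ninths of the iterates -/
theorem five_ninths (ε : ℝ) (hε : 0 < ε) : ∀ (a b c : ℤ), 1 ≤ a → 1 ≤ b → c ≠ 0 → IsCoprime a b →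
    IsCoprime a c → IsCoprime b c → ¬ (Odd a ∧ Odd b ∧ Odd c) →
    ∃ M : ℕ, 0 < M ∧ ∀ N : ℕ, 0 < N → M ∣ N → ∃ L : ℕ, ∀ T : ℕ, L ≤ T → ∀ u : ℕ,
      (5 / 9 - ε) * T ≤ ({k : ℕ | u < k ∧ k ≤ u + T ∧ N * k ∈ GoodEqExp a b c}.ncard : ℝ) := by
  obtain ⟨n, hn1, hn⟩ := Pool.Agent.Y827.GS.mthG (18 / 5) (by norm_num) (by norm_num) ε hε
  obtain ⟨K, hK, hQ⟩ := Pool.Agent.Y827.GS.quarterGD n
  rw [show (2 / (18 / 5) : ℝ) = 5 / 9 by norm_num] at hn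
  intro a b c ha hb hc hab hac hbc hpar
  refine hn K (GoodEqExp a b c) fun H hinj hdiv => ?_
  refine Pool.Agent.Y860.IT.classes a b c ha hb hc hab hac hbc hpar
    (fun S => (n : ℝ) ≤ (18 / 5) * S.card) hQ H ?_
  refine admN_of' H hinj fun p hp hle g i => ?_
  exact (Int.natCast_dvd_natCast.2 ((Nat.dvd_factorial hp.pos hle).trans (hdiv g i)))

/-- two systems at the same time -/
theorem two_systems (x y : ℝ) (G G' : Set ℕ) (M M' : ℕ)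
    (h : ∀ N : ℕ, 0 < N → M ∣ N → ∃ L : ℕ, ∀ T : ℕ, L ≤ T → ∀ u : ℕ,
      x * T ≤ ({k : ℕ | u < k ∧ k ≤ u + T ∧ N * k ∈ G}.ncard : ℝ))
    (h' : ∀ N : ℕ, 0 < N → M' ∣ N → ∃ L : ℕ, ∀ T : ℕ, L ≤ T → ∀ u : ℕ,
      y * T ≤ ({k : ℕ | u < k ∧ k ≤ u + T ∧ N * k ∈ G'}.ncard : ℝ)) :
    ∀ N : ℕ, 0 < N → M * M' ∣ N → ∃ L : ℕ, ∀ T : ℕ, L ≤ T → ∀ u : ℕ,
      (x + y - 1) * T ≤ ({k : ℕ | u < k ∧ k ≤ u + T ∧ N * k ∈ G ∧ N * k ∈ G'}.ncard : ℝ) := by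
  intro N hN hd
  obtain ⟨L, hL⟩ := h N hN ((dvd_mul_right _ _).trans hd)
  obtain ⟨L', hL'⟩ := h' N hN ((dvd_mul_left _ _).trans hd)
  refine ⟨max L L', fun T hT u => ?_⟩
  have h1 := hL T ((le_max_left _ _).trans hT) u
  have h2 := hL' T ((le_max_right _ _).trans hT) u
  obtain ⟨A, hA⟩ : ∃ A : Set ℕ, A = {k : ℕ | u < k ∧ k ≤ u + T ∧ N * k ∈ G} := ⟨_, rfl⟩
  obtain ⟨A', hA'⟩ : ∃ A' : Set ℕ, A' = {k : ℕ | u < k ∧ k ≤ u + T ∧ N * k ∈ G'} := ⟨_, rfl⟩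
  have hfin : A.Finite := by rw [hA]; exact (Set.finite_Ioc u (u + T)).subset fun k hk => ⟨hk.1, hk.2.1⟩
  have hfin' : A'.Finite := by
    rw [hA']; exact (Set.finite_Ioc u (u + T)).subset fun k hk => ⟨hk.1, hk.2.1⟩
  have h3 : {k : ℕ | u < k ∧ k ≤ u + T ∧ N * k ∈ G ∧ N * k ∈ G'} = A ∩ A' := by
    rw [hA, hA']
    ext k
    constructor
    · rintro ⟨e1, e2, e3, e4⟩
      exact ⟨⟨e1, e2, e3⟩, e1, e2, e4⟩
    · rintro ⟨⟨e1, e2, e3⟩, _, _, e4⟩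
      exact ⟨e1, e2, e3, e4⟩
  rw [← hA] at h1
  rw [← hA'] at h2
  rw [h3]
  have h4 : (A ∪ A').ncard ≤ T := by
    have h5 : A ∪ A' ⊆ (Ioc u (u + T) : Finset ℕ) := by
      rw [hA, hA']
      rintro k (hk | hk)
      · exact mem_coe.2 (mem_Ioc.2 ⟨hk.1, hk.2.1⟩)
      · exact mem_coe.2 (mem_Ioc.2 ⟨hk.1, hk.2.1⟩)
    have h6 := Set.ncard_le_ncard h5 (Finset.finite_toSet _)
    rw [Set.ncard_coe_finset, Nat.card_Ioc] at h6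
    omega
  have h5 := Set.ncard_union_add_ncard_inter A A' hfin hfin'
  have h6 : ((A ∪ A').ncard : ℝ) + ((A ∩ A').ncard : ℝ) = A.ncard + A'.ncard := by exact_mod_cast h5
  have h7 : ((A ∪ A').ncard : ℝ) ≤ T := by exact_mod_cast h4
  linarith

end Pool.Agent.Y860.G5
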