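import Pool.Agent.Y860.SL.Slopes
import Pool.Agent.Y827.GS.Nin

/-!
# Cliques of slopes, five eighteenths
-/

set_option autoImplicit false

namespace Pool.Agent.Y860.G5

open Finset Pool.Agent.Y860.SL

theorem five_eighteenths (n : ℕ) (m : Fin n → ℕ) (hm : ∀ i, 1 ≤ m i) :
    ∃ C : ℕ, ∀ B : ℤ, ∃ S : Finset (Fin n), (5 / 18) * (n : ℝ) ≤ S.card ∧
      ∀ i ∈ S, ∀ j ∈ S, i < j → GoodAt m C B i j := by
  obtain ⟨K, hK, hQ⟩ := Pool.Agent.Y827.GS.quarterGD n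
  obtain ⟨C, hC⟩ := cliques (K := K) (fun S : Finset (Fin n) => (n : ℝ) ≤ (18 / 5) * S.card) hQ m hm
  refine ⟨C, fun B => ?_⟩
  obtain ⟨S, hS, h⟩ := hC B
  exact ⟨S, by linarith, h⟩

end Pool.Agent.Y860.G5
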